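import Pool.Agent.Q49.WU.Origin

/-!
# Abelian varieties attached to Hilbert newforms and hypergraphs

Let `F` be a totally real number field and `ℓ` a prime. Let `A` be the abelian category of
finite-dimensional continuous representations of `G_F` over `ℚ̄_ℓ`, with the Tate twists `M ↦ M(a)`. For a
separated scheme `X` of finite type over `ℚ` let `D.H m n X` be the object `Gr^W_{1+2m} H^n_c(X_ℚ̄, ℚ̄_ℓ)`,
restricted to `G_F`. For smooth projective `Y` the object `D.H 0 n Y` is `H^1(Y_ℚ̄, ℚ̄_ℓ)` if `n = 1`, and
zero for all other `n`; in odd weight the point `Spec ℚ` contributes zero (hypothesis `point`).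

For a Hilbert newform `f : V` over `F` of parallel weight `2` and trivial central character let `att f` be
the statement that there is a simple abelian variety `A_f` over `F` with `L(A_f, s) = Λ_f(s)`, and `rho f`
the two-dimensional representation of `G_F` attached to `f`, in the normalization of weight one. It is
irreducible (hypothesis `irred`) and pure (hypothesis `weight`). If `A_f` exists, `rho f` is a subquotient
of `H^1(A_f)`, and so of `H^1` of the scheme `A_f` over `ℚ`; conversely, if `rho f` is a subquotient of
`H^1(Y)` for a smooth projective scheme `Y` over `ℚ`, it is a subquotient of `H^1(B)` for a simple factor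
`B` over `F` of the Albanese variety of `Y_F`, and `B` is the abelian variety `A_f` by Faltings' theorem
(hypothesis `faltings`).

**Theorem.** For every Hilbert newform `f` as above the abelian variety `A_f` exists if and only if
`rho f` is a subquotient of `Gr^W_{2a-1} H^n_c((X_H)_ℚ̄, ℚ̄_ℓ)(a - 1)`, restricted to `G_F`, for some `n` and
some smooth affine cubic hypersurface `X_H : ∑_{(p, q, r) ∈ H} x_p y_q z_r = 1` with coefficients `0` and
`1`, where `H` is a finite set of triples and `a` the number of the variables `x_p`; and also if and only
if this is true for a hypersurface `T(x, y, z) = 1`, `T` a trilinear form with rational coefficients in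
`a` variables `x_p` and any numbers of variables `y_q`, `z_r`.
-/

set_option autoImplicit false

open CategoryTheory CategoryTheory.Limits AlgebraicGeometry Pool.Agent.Y116.UV Pool.Agent.Z125.UN
  Pool.Agent.Q193.LT Pool.Agent.Q49.WU

universe v u

namespace Pool.Agent.Results.MP_6cbef8_nt.OddWeightsOfHypergraphs

/-- **Abelian varieties attached to Hilbert newforms and hypergraphs.** See the explanations above. -/
theorem result {F : Type} [Field F] [NumberField F] [NumberField.IsTotallyReal F] {A : Type u}
    [Category.{v} A] [Abelian A] {D : WeightData ℚ A} (h : IsWeight D) (hg : WGenerated D)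
    {V : Type} {att : V → Prop} {rho : V → A} (irred : ∀ f, Simple (rho f))
    (weight : ∀ f, HasWeight D (rho f)) (point : ∀ f N, ¬ OccursAt D (rho f) N (aff ℚ ℚ))
    (faltings : ∀ f, att f ↔ ∃ Y : Sch ℚ, SmoothProj Y ∧ OccursAt D (rho f) 0 Y) :
    (∀ f, att f ↔ ∃ (a b c : ℕ) (H : Finset (Fin a × Fin b × Fin c)),
      OccursAt D (rho f) (a - 1) (tripS ℚ H)) ∧
    ∀ f, att f ↔ ∃ (a b c : ℕ) (T : Fin a → Fin b → Fin c → ℚ),
      OccursAt D (rho f) (a - 1) (hypS T) := by
  refine ⟨fun f => ?_, fun f => ?_⟩
  · have := irred f
    have h1 := origin_graphs h hg (weight f) (point f) frac_rat 0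
    simp only [zero_add] at h1
    exact (faltings f).trans h1
  · have := irred f
    have h1 := origin_forms h hg (weight f) (point f) 0
    simp only [zero_add] at h1
    exact (faltings f).trans h1

end Pool.Agent.Results.MP_6cbef8_nt.OddWeightsOfHypergraphs
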