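import Mathlib
import Pool.Agent.Q112.PI.Ext

/-!
# Hilbert newforms which are potentially invariant up to twist

`F` is a totally real field, `F₀` a subfield of odd degree over `ℚ` such that `F₀ = ℚ` or the Galois
closure of `F` over `F₀` is solvable over `F₀`. `W` and `H` are the absolute Galois groups of `F₀`
and `F`, `k` is an algebraic closure of the field of `l`-adic numbers and `ρ : H → GL₂(k)` is the
Galois representation of a Hilbert newform `f` over `F` of parallel weight two without complex
multiplication. `L` is a finite Galois extension of `F₀` containing `F` and `A` its absolute Galois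
group. If over `L` the representation `ρ` is isomorphic to a twist of each of its conjugates under
`W`, then `ρ` is a twist of the restriction of the Galois representation of a Hilbert newform over
`F₀`, and the abelian variety `A_f` exists.
-/

set_option autoImplicit false

namespace Pool.Agent.Results.MP_6cbef8_nt.PotentiallyInvariant

open Matrix Q112PI

variable {W : Type} [Group W] {k : Type} [Field k]

/-- The published theorems. `contW`: continuous representations of `W`; `newW`: twists (by a
continuous character of `W`) of the representations `ρ_{f₀}` of the Hilbert newforms `f₀` over `F₀`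
of parallel weight two; `new`: the representations `ρ_f` of the Hilbert newforms `f` over `F` of
parallel weight two with trivial central character; `av`: twists (by a
continuous character of `H`) of constituents of the Tate module of an abelian variety over `F`;
`AV ρ`: if `ρ = ρ_f`, then some simple abelian variety `A_f` over `F` satisfies `L(A_f, s) = Λ_f(s)`. -/
structure KnownTheorems (H : Subgroup W) (contW newW : (W →* GL (Fin 2) k) → Prop)
    (new av AV : (H →* GL (Fin 2) k) → Prop) : Prop where
  /-- Tate: a continuous projective representation of `W` lifts to a continuous representation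
  (`H` is open in `W`, so a projective representation is continuous if it is so on `H`) -/
  tate : ∀ (P : W → GL (Fin 2) k) (ρ : H →* GL (Fin 2) k), IsProj P → new ρ →
    (∀ h : H, P h = ρ h) → ∃ ρ₀ : W →* GL (Fin 2) k, contW ρ₀ ∧
      ∀ g : W, ∃ c : kˣ, (ρ₀ g : Matrix (Fin 2) (Fin 2) k) = (c : k) • (P g : Matrix _ _ k)
  /-- descent of automorphy: Langlands' solvable base change if the Galois closure of `F` over `F₀`
  is solvable over `F₀`; Khare, Wintenberger, Kisin if `F₀ = ℚ` -/
  descent : ∀ (ρ₀ : W →* GL (Fin 2) k) (ρ : H →* GL (Fin 2) k), contW ρ₀ → new ρ →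
    IsTwist (ρ₀.comp H.subtype) ρ → newW ρ₀
  /-- Eichler, Shimura (`F₀ = ℚ`), Zhang (`F₀` of odd degree): the abelian varieties of the newforms
  over `F₀` -/
  zhang : ∀ ρ₀ : W →* GL (Fin 2) k, newW ρ₀ → av (ρ₀.comp H.subtype)
  /-- the definition of `av` -/
  twist : ∀ ρ ρ' : H →* GL (Fin 2) k, av ρ → new ρ' → IsTwist ρ ρ' → av ρ'
  /-- Faltings, Carayol, Taylor: if `ρ_f` is a twist of a constituent of the Tate module of an
  abelian variety over `F`, then some simple abelian variety `A_f` over `F` satisfies `L(A_f, s) = Λ_f(s)` -/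
  simple : ∀ ρ : H →* GL (Fin 2) k, new ρ → av ρ → AV ρ

theorem result [IsAlgClosed k] {H A : Subgroup W} [A.Normal] (hAH : A ≤ H)
    {contW newW : (W →* GL (Fin 2) k) → Prop} {new av AV : (H →* GL (Fin 2) k) → Prop}
    (known : KnownTheorems H contW newW new av AV) (ρ : H →* GL (Fin 2) k) (hnew : new ρ)
    (hirr : Irr (ρ.comp (Subgroup.inclusion hAH)))
    (hns : NoSelfTwist (ρ.comp (Subgroup.inclusion hAH)))
    (hinv : InvUpToTwist (ρ.comp (Subgroup.inclusion hAH))) :
    (∃ ρ₀ : W →* GL (Fin 2) k, newW ρ₀ ∧ IsTwist (ρ₀.comp H.subtype) ρ) ∧ AV ρ := by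
  obtain ⟨P, hP, hPρ⟩ := exists_proj hAH ρ hirr hns hinv
  obtain ⟨ρ₀, hρ₀, hlift⟩ := known.tate P ρ hP hnew hPρ
  have htw : IsTwist (ρ₀.comp H.subtype) ρ := by
    refine twist_of_lift ρ ρ₀ fun x => ?_
    obtain ⟨c, hc⟩ := hlift x
    exact ⟨c, by rw [hc, hPρ]⟩
  have h1 : newW ρ₀ := known.descent ρ₀ ρ hρ₀ hnew htw
  exact ⟨⟨ρ₀, h1, htw⟩, known.simple ρ hnew (known.twist _ _ (known.zhang ρ₀ h1) hnew htw)⟩

end Pool.Agent.Results.MP_6cbef8_nt.PotentiallyInvariant
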