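import Pool.Agent.Q193.LT.Simp

/-!
# Abelian varieties attached to Hilbert newforms and cubics with rational coefficients

Let `F` be a totally real number field and `ℓ` a prime number. Let `A` be the abelian category of the
continuous finite-dimensional representations of `G_F` over `ℚ̄_ℓ`, with the Tate twists `N ↦ N(j)`. For a
separated scheme `X` of finite type over `ℚ` let `D.H i X` be the representation `H^i_c(X_{ℚ̄}, ℚ̄_ℓ)` of
`G_ℚ`, restricted to `G_F`. Its standard properties are `IsCompact D` (long exact sequences, affine
bundles, products with `𝔾_m`) and `Generated D` (smooth projective varieties generate in each dimension,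
by resolution of singularities). `Occurs D ρ N` says that `ρ` is isomorphic to a subquotient of a Tate
twist of `N`.

For a Hilbert newform `f` over `F` of parallel weight `2` with trivial central character (the type `V` of
all such newforms) let `rho f` be the associated irreducible representation of dimension two (Carayol,
Taylor, Blasius-Rogawski; irreducible by Ribet and Taylor). It does not occur in the cohomology of the point
(hypothesis `point`). Let `att f` be the statement of question Q1 for `f`: there is a simple abelian variety
`A_f` over `F` with `L(A_f, s) = Λ_f(s)`. This is equivalent to the statement that `rho f` is a subquotient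
of a Tate twist of the cohomology of a smooth projective curve over `F`, or over `ℚ`, by the theorem of
Faltings: if `rho f` occurs in the Tate module of an abelian variety, it occurs in the Tate module of a
simple one, `B`; the centre of `End(B) ⊗ ℚ` is generated by the traces, so it is `M_f`, and the endomorphism
algebra is `M_f` as `F` has a real place (hypothesis `faltings`).

**Theorem.** (1) For every newform `f` there is an abelian variety `A_f` with `L(A_f, s) = Λ_f(s)` if and
only if `rho f` is a subquotient of a Tate twist of `H^i_c(Z)`, restricted to `G_F`, for some `i` and some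
smooth affine cubic hypersurface `Z : T(x, y, z) = 1`, where `T` is a trilinear form with *rational*
coefficients such that one of the three blocks of variables has at most three variables (the other two
blocks are arbitrary).

(2) For all `n` the representation `rho f` occurs in the cohomology of a smooth projective scheme of
dimension at most `n` over `ℚ` if and only if it occurs, in this sense, in `H^i_c(T = 1)` for some
trilinear form `T` with rational coefficients and a block of at most `n + 2` variables.
-/

set_option autoImplicit false

open CategoryTheory CategoryTheory.Limits AlgebraicGeometry Pool.Agent.Y116.UV Pool.Agent.Z125.UN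
  Pool.Agent.Q193.LT

universe v u

namespace Pool.Agent.Results.MP_6cbef8_nt.RationalCubics

/-- **Abelian varieties attached to Hilbert newforms and cubic hypersurfaces over `ℚ`.** See the
explanations above. -/
theorem result {F : Type} [Field F] [NumberField F] [NumberField.IsTotallyReal F] {A : Type u}
    [Category.{v} A] [Abelian A] {D : CompactData ℚ A} (hD : IsCompact D) (hg : Generated D)
    {V : Type 1} {rho : V → A} {att : V → Prop} (simple : ∀ f, Simple (rho f))
    (point : ∀ f i, ¬ Occurs D (rho f) (D.H i (aff ℚ ℚ)))
    (faltings : ∀ f, att f ↔ ∃ Y : Sch ℚ, SmoothProj Y ∧ topologicalKrullDim Y.left ≤ (1 : ℕ) ∧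
      ∃ i, Occurs D (rho f) (D.H i Y)) (f : V) :
    (att f ↔ ∃ (a b c : ℕ) (T : Fin a → Fin b → Fin c → ℚ), (a ≤ 3 ∨ b ≤ 3 ∨ c ≤ 3) ∧
      ∃ i, Occurs D (rho f) (D.H i (hypS T))) ∧
    ∀ n : ℕ, (∃ Y : Sch ℚ, SmoothProj Y ∧ topologicalKrullDim Y.left ≤ n ∧
        ∃ i, Occurs D (rho f) (D.H i Y)) ↔
      ∃ (a b c : ℕ) (T : Fin a → Fin b → Fin c → ℚ), (a ≤ n + 2 ∨ b ≤ n + 2 ∨ c ≤ n + 2) ∧
        ∃ i, Occurs D (rho f) (D.H i (hypS T)) := by
  have := simple f
  have h1 : ∀ n : ℕ, (∃ Y : Sch ℚ, SmoothProj Y ∧ topologicalKrullDim Y.left ≤ n ∧
        ∃ i, Occurs D (rho f) (D.H i Y)) ↔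
      ∃ (a b c : ℕ) (T : Fin a → Fin b → Fin c → ℚ), (a ≤ n + 2 ∨ b ≤ n + 2 ∨ c ≤ n + 2) ∧
        ∃ i, Occurs D (rho f) (D.H i (hypS T)) := by
    intro n
    rw [origin_proj hD (rho f) hg n]
    constructor
    · rintro (⟨i, hi⟩ | h)
      · exact absurd hi (point f i)
      · exact h
    · exact Or.inr
  exact ⟨(faltings f).trans (h1 1), h1⟩

end Pool.Agent.Results.MP_6cbef8_nt.RationalCubics
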